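import Pool.Agent.W86.Urn3

set_option autoImplicit false
open Filter Topology MeasureTheory
open Pool.Agent.W86.Urn

namespace Pool.Agent.Results.MP_0b3b8e_pr.NoMonopoly

/-- **Monopoly can fail for interacting urns with full interaction** (`p = 1`), for `d = 2` urns:
there is a strong reinforcement sequence `W` (positive, `∑ 1 / W n < ∞`) such that for every
`ε > 0` there is an initial composition `c₀` (with balls of both colours in both urns) for which
the probability of monopoly is at most `ε`.  (The process exists for this `c₀`.) -/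
theorem result :
    ∃ W : ℕ → ℝ, (∀ n, 0 < W n) ∧ Summable (fun n => 1 / W n) ∧
      ∀ ε : ℝ, 0 < ε → ∃ c₀ : Conf 2, (∀ i, 0 < c₀.1 i ∧ 0 < c₀.2 i) ∧
        (∃ μ : Measure (ℕ → Conf 2), IsProbabilityMeasure μ ∧ IsUrn μ (fun n ω => ω n) W c₀) ∧
        ∀ (Ω : Type) [MeasurableSpace Ω] (μ : Measure Ω) [IsProbabilityMeasure μ]
          (X : ℕ → Ω → Conf 2), IsUrn μ X W c₀ →
          μ {ω | Monopoly (fun n => X n ω)} ≤ ENNReal.ofReal ε := by
  refine ⟨V, V_pos, V_strong, fun ε hε => ?_⟩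
  have hlim : Tendsto (fun M : ℕ => 4 * ((3:ℝ) / 4) ^ (2 * M) + (1 / 2) ^ (8 * M ^ 2))
      atTop (𝓝 0) := by
    have h1 : Tendsto (fun M : ℕ => ((3:ℝ) / 4) ^ (2 * M)) atTop (𝓝 0) :=
      (tendsto_pow_atTop_nhds_zero_of_lt_one (by norm_num) (by norm_num)).comp
        (tendsto_id.const_mul_atTop' (by norm_num))
    have h2 : Tendsto (fun M : ℕ => ((1:ℝ) / 2) ^ (8 * M ^ 2)) atTop (𝓝 0) :=
      (tendsto_pow_atTop_nhds_zero_of_lt_one (by norm_num) (by norm_num)).comp
        ((tendsto_pow_atTop (by norm_num)).const_mul_atTop' (by norm_num))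
    simpa using (h1.const_mul 4).add h2
  obtain ⟨M, hM, hM6⟩ := ((hlim.eventually_le_const hε).and (eventually_ge_atTop 6)).exists
  refine ⟨(fun _ => 2 * M ^ 2, fun _ => 2 * M ^ 2), fun i => ?_, exists_urn V_nonneg _, ?_⟩
  · have : 0 < M := by omega
    exact ⟨by positivity, by positivity⟩
  · intro Ω _ μ _ X h
    exact (monopoly_small hM6 h).trans (ENNReal.ofReal_le_ofReal hM)

end Pool.Agent.Results.MP_0b3b8e_pr.NoMonopoly
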